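import Pool.Agent.helper22.GS.Spec

set_option autoImplicit false

namespace Pool.Agent.GS

open Module

theorem AE_tvA {F K : Type} [Field F] [Field K] [Algebra F K] (hB : Alt (B0 F K)) (x : K) (s : F)
    (a b : K) : tv (B0 F K) ((x, 0) : K × K) s (a, b) =
      (a - (s * Algebra.trace F K (b * x)) • x, b) := by
  rw [tv_apply hB, B0_apply]
  ext
  · simp only [mul_zero, zero_sub, map_neg, mul_neg, Prod.fst_add, neg_smul]
    rw [sub_eq_add_neg, Prod.fst_neg, Prod.smul_fst]
  · simp only [Prod.snd_add, Prod.smul_snd, smul_zero, add_zero]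

theorem AE_li {F K ι : Type} [Field F] [Field K] [Algebra F K] (u : Basis ι F K)
    (f : K →ₗ[F] K × K) (hf : Function.Injective f) (i j : ι) (hij : i ≠ j) :
    LinearIndependent F ![f (u i), f (u j)] := by
  have h1 : Function.Injective ![i, j] := by
    intro a b hab
    fin_cases a <;> fin_cases b
    · rfl
    · exact absurd hab hij
    · exact absurd hab (Ne.symm hij)
    · rfl
  have h2 := (u.linearIndependent.comp ![i, j] h1).map' f (LinearMap.ker_eq_bot.2 hf)
  have h3 : (f ∘ (u ∘ ![i, j])) = ![f (u i), f (u j)] := by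
    funext a
    fin_cases a <;> rfl
  rwa [h3] at h2

theorem AE_tvB {F K : Type} [Field F] [Field K] [Algebra F K] (hB : Alt (B0 F K)) (x : K) (s : F)
    (a b : K) : tv (B0 F K) ((0, x) : K × K) s (a, b) =
      (a, b + (s * Algebra.trace F K (a * x)) • x) := by
  rw [tv_apply hB, B0_apply]
  simp only [mul_zero, sub_zero, Prod.smul_mk, smul_zero, Prod.mk_add_mk, add_zero]

theorem AE_prA {F K : Type} [Field F] [Field K] [Algebra F K] (hB : Alt (B0 F K))
    (M : List ((K × K) × (F × F))) (a b : K) :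
    pr (B0 F K) (M.map fun t => (((t.1.1, 0), (t.1.2, 0)), t.2)) (a, b) =
      (a - (M.map fun t => (t.2.1 * Algebra.trace F K (b * t.1.1)) • t.1.1 +
        (t.2.2 * Algebra.trace F K (b * t.1.2)) • t.1.2).sum, b) := by
  induction M with
  | nil => simp [pr]
  | cons t M ih =>
    unfold pr at ih ⊢
    rw [List.map_cons, List.map_cons, List.prod_cons, Equiv.Perm.mul_apply, ih,
      Equiv.Perm.mul_apply, AE_tvA hB, AE_tvA hB, List.map_cons, List.sum_cons]
    simp only [Prod.mk.injEq, and_true]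
    abel

theorem AE_prB {F K : Type} [Field F] [Field K] [Algebra F K] (hB : Alt (B0 F K))
    (M : List ((K × K) × (F × F))) (a b : K) :
    pr (B0 F K) (M.map fun t => (((0, t.1.1), (0, t.1.2)), t.2)) (a, b) =
      (a, b + (M.map fun t => (t.2.1 * Algebra.trace F K (a * t.1.1)) • t.1.1 +
        (t.2.2 * Algebra.trace F K (a * t.1.2)) • t.1.2).sum) := by
  induction M with
  | nil => simp [pr]
  | cons t M ih =>
    unfold pr at ih ⊢
    rw [List.map_cons, List.map_cons, List.prod_cons, Equiv.Perm.mul_apply, ih,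
      Equiv.Perm.mul_apply, AE_tvB hB, AE_tvB hB, List.map_cons, List.sum_cons]
    simp only [Prod.mk.injEq, true_and]
    abel

theorem AE (hBF : BF_stmt) (hEX : EX_stmt) (hNK : NK_stmt) : AE_stmt := by
  intro F K _ _ _ _ _ r k σ α β τ u w hHD hτ hα hβ hαβ hu hw
  have hB : Alt (B0 F K) := hBF.2.1
  have hd : ∀ i : Fin k ⊕ Fin k, nrm' (F := F) τ i ≠ 0 := by
    rintro (i | i)
    · exact one_ne_zero
    · exact neg_ne_zero.2 hτ
  obtain ⟨MA, hMA⟩ : ∃ MA : List ((K × K) × (F × F)),
      MA = List.ofFn (fun i : Fin k => ((u (.inl i), u (.inr i)), ((-1 : F), τ⁻¹))) := ⟨_, rfl⟩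
  obtain ⟨MB, hMB⟩ : ∃ MB : List ((K × K) × (F × F)),
      MB = List.ofFn (fun i : Fin k => ((w (.inl i), w (.inr i)), ((1 : F), -τ⁻¹))) := ⟨_, rfl⟩
  have hA : ∀ a b : K, pr (B0 F K) (MA.map fun t => (((t.1.1, 0), (t.1.2, 0)), t.2)) (a, b) =
      (a + α * b, b) := by
    intro a b
    rw [AE_prA hB, hMA, List.map_ofFn, List.sum_ofFn]
    have h1 := hEX (F := F) (K := K) α u (nrm' τ) hα hd hu b
    rw [Fintype.sum_sum_type] at h1
    simp only [nrm'] at h1
    rw [Prod.mk.injEq]
    refine ⟨?_, rfl⟩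
    rw [← h1, sub_eq_add_neg, ← Finset.sum_neg_distrib, ← Finset.sum_add_distrib]
    congr 1
    apply Finset.sum_congr rfl
    intro i _
    simp only [Function.comp_apply, inv_one, one_mul, neg_mul, neg_smul, inv_neg, neg_add_rev,
      neg_neg]
    rw [add_comm]
  have hB' : ∀ a b : K, pr (B0 F K) (MB.map fun t => (((0, t.1.1), (0, t.1.2)), t.2)) (a, b) =
      (a, b + β * a) := by
    intro a b
    rw [AE_prB hB, hMB, List.map_ofFn, List.sum_ofFn]
    have h1 := hEX (F := F) (K := K) β w (nrm' τ) hβ hd hw a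
    rw [Fintype.sum_sum_type] at h1
    simp only [nrm'] at h1
    rw [Prod.mk.injEq]
    refine ⟨rfl, ?_⟩
    rw [← h1, ← Finset.sum_add_distrib]
    congr 1
    apply Finset.sum_congr rfl
    intro i _
    simp only [Function.comp_apply, inv_one, one_mul, neg_mul, neg_smul, inv_neg]
  refine ⟨(MA.map fun t => (((t.1.1, 0), (t.1.2, 0)), t.2)) ++
    (MB.map fun t => (((0, t.1.1), (0, t.1.2)), t.2)), ?_, ?_, ?_⟩
  · rw [List.length_append, List.length_map, List.length_map, hMA, hMB, List.length_ofFn,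
      List.length_ofFn]
    ring
  · intro t ht
    rw [List.mem_append, List.mem_map, List.mem_map] at ht
    have hne : ∀ i : Fin k, (Sum.inl i : Fin k ⊕ Fin k) ≠ Sum.inr i := by
      intro i
      simp
    rcases ht with ⟨s, hs, rfl⟩ | ⟨s, hs, rfl⟩
    · rw [hMA, List.mem_ofFn] at hs
      obtain ⟨i, rfl⟩ := hs
      refine ⟨?_, ?_, ?_, ?_, ?_⟩
      · exact AE_li u (LinearMap.inl F K K) LinearMap.inl_injective _ _ (hne i)
      · rw [B0_apply]
        simp
      · exact neg_ne_zero.2 one_ne_zero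
      · exact inv_ne_zero hτ
      · refine ⟨1, ?_⟩
        simp only
        field_simp
    · rw [hMB, List.mem_ofFn] at hs
      obtain ⟨i, rfl⟩ := hs
      refine ⟨?_, ?_, ?_, ?_, ?_⟩
      · exact AE_li w (LinearMap.inr F K K) LinearMap.inr_injective _ _ (hne i)
      · rw [B0_apply]
        simp
      · exact one_ne_zero
      · exact neg_ne_zero.2 (inv_ne_zero hτ)
      · refine ⟨1, ?_⟩
        simp only
        field_simp
  · apply hNK r (2 * k) α β (by rw [hαβ]; exact hHD)
    intro a b
    unfold pr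
    rw [List.map_append, List.prod_append, Equiv.Perm.mul_apply]
    have h1 := hB' a b
    unfold pr at h1
    rw [h1]
    have h2 := hA a (b + β * a)
    unfold pr at h2
    rw [h2, Prod.mk.injEq]
    constructor
    · ring
    · ring

end Pool.Agent.GS
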